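import Pool.Agent.helper76.LP.Defs

/-! # Project QR: modules MB, GA, GC -/

namespace Pool.Agent.helper76.LP

open Finset

lemma GA_mem {d p e : ℕ} [NeZero d] (he : e * p = d) (hp : 0 < p) (u : (ZMod d)ˣ) :
    u ∈ Gam d p ↔ ZMod.unitsMap (Dvd.intro p he) u = 1 := by
  have hpd : p ∣ d := ⟨e, by rw [← he, mul_comm]⟩
  have h1 : e = d / p := by
    rw [← he, Nat.mul_div_cancel _ hp]
  subst h1
  unfold Gam
  rw [dif_pos hpd, MonoidHom.mem_ker]

/-! ### MB: imprimitive characters are trivial on some `Gam d p` -/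

theorem imprim (d : ℕ) [NeZero d] (χ : DirichletCharacter ℂ d) (h : ¬ χ.IsPrimitive) :
    ∃ p ∈ d.primeFactors, ∀ u ∈ Gam d p, χ (u : ZMod d) = 1 := by
  have hd0 : 0 < d := Nat.pos_of_ne_zero (NeZero.ne d)
  have hc : χ.conductor ∣ d := χ.conductor_dvd_level
  obtain ⟨k, hk⟩ := hc
  have hk1 : k ≠ 1 := by
    rintro rfl
    apply h
    rw [DirichletCharacter.isPrimitive_def]
    omega
  obtain ⟨p, hp, hpk⟩ := Nat.exists_prime_and_dvd hk1
  obtain ⟨l, hl⟩ := hpk
  have he : (χ.conductor * l) * p = d := by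
    calc (χ.conductor * l) * p = χ.conductor * k := by rw [hl]; ring
      _ = d := hk.symm
  have he2 : d = p * (χ.conductor * l) := by
    calc d = (χ.conductor * l) * p := he.symm
      _ = _ := by ring
  refine ⟨p, Nat.mem_primeFactors.2 ⟨hp, ⟨χ.conductor * l, he2⟩, hd0.ne'⟩, ?_⟩
  intro u hu
  rw [GA_mem he hp.pos] at hu
  have h2 := (DirichletCharacter.factorsThrough_iff_ker_unitsMap (χ := χ) χ.conductor_dvd_level).1
    χ.factorsThrough_conductor
  have h3 : u ∈ (ZMod.unitsMap χ.conductor_dvd_level).ker := by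
    rw [MonoidHom.mem_ker]
    have h4 : ZMod.unitsMap χ.conductor_dvd_level =
        (ZMod.unitsMap (Dvd.intro l rfl : χ.conductor ∣ χ.conductor * l)).comp
          (ZMod.unitsMap (Dvd.intro p he)) := by
      rw [ZMod.unitsMap_comp]
    rw [h4, MonoidHom.comp_apply, hu, map_one]
  have h5 := h2 h3
  rw [MonoidHom.mem_ker] at h5
  have h6 := congrArg (fun v : ℂˣ => (v : ℂ)) h5
  simpa [MulChar.coe_toUnitHom] using h6

/-! ### GF: facts on the subgroups `Gam d p` -/

theorem card_Gam (d p : ℕ) [NeZero d] (hp : p.Prime) (hpd : p ∣ d) :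
    Nat.card (Gam d p) = if p ^ 2 ∣ d then p else p - 1 := by
  obtain ⟨e, rfl⟩ := hpd
  have hpe : p * e ≠ 0 := NeZero.ne _
  have he0 : e ≠ 0 := right_ne_zero_of_mul hpe
  have : NeZero e := ⟨he0⟩
  have he : e * p = p * e := mul_comm _ _
  set f := ZMod.unitsMap (Dvd.intro p he) with hf
  have h1 : Gam (p * e) p = f.ker := by
    ext u
    rw [GA_mem he hp.pos, MonoidHom.mem_ker]
  have hsurj : Function.Surjective f := ZMod.unitsMap_surjective _
  have h2 : Nat.card (Gam (p * e) p) * (e.totient) = (p * e).totient := by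
    rw [h1]
    have h3 := Subgroup.card_mul_index f.ker
    rw [Subgroup.index_ker, MonoidHom.range_eq_top.2 hsurj, Subgroup.card_top] at h3
    rw [Nat.card_eq_fintype_card, Nat.card_eq_fintype_card, Nat.card_eq_fintype_card,
      ZMod.card_units_eq_totient, ZMod.card_units_eq_totient] at h3
    rw [Nat.card_eq_fintype_card]
    exact h3
  have hφ : 0 < e.totient := Nat.totient_pos.2 (Nat.pos_of_ne_zero he0)
  have h4 : p ^ 2 ∣ p * e ↔ p ∣ e := by
    rw [pow_two]
    exact Nat.mul_dvd_mul_iff_left hp.pos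
  by_cases hpe' : p ∣ e
  · rw [if_pos (h4.2 hpe')]
    rw [Nat.totient_mul_of_prime_of_dvd hp hpe'] at h2
    exact Nat.eq_of_mul_eq_mul_right hφ h2
  · rw [if_neg (fun h => hpe' (h4.1 h))]
    rw [Nat.totient_mul_of_prime_of_not_dvd hp hpe'] at h2
    exact Nat.eq_of_mul_eq_mul_right hφ h2

theorem desc_Gam (d p e : ℕ) [NeZero d] [NeZero e] (he : e * p = d) (hp : p.Prime)
    (n : (ZMod d)ˣ → ℤ) (hn : ∀ u ∈ Gam d p, ∀ x, n (u * x) = n x)
    (hodd : ∀ x, n (-x) = - n x) :
    ∃ ν : (ZMod e)ˣ → ℤ, (∀ z, n z = ν (ZMod.unitsMap (Dvd.intro p he) z)) ∧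
      (∀ y, ν (-y) = - ν y) ∧
      (∑ y, |ν y|) * (Nat.card (Gam d p) : ℤ) = ∑ z, |n z| := by
  classical
  set f := ZMod.unitsMap (Dvd.intro p he) with hf
  have hsurj : Function.Surjective f := ZMod.unitsMap_surjective _
  have hnf : ∀ z z', f z = f z' → n z = n z' := by
    intro z z' hz
    have h1 : z * z'⁻¹ ∈ Gam d p := by
      rw [GA_mem he hp.pos, map_mul, map_inv]
      exact mul_inv_eq_one.2 hz
    have h2 := hn _ h1 z'
    rwa [inv_mul_cancel_right] at h2
  have hfneg : ∀ z, f (-z) = - f z := by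
    intro z
    apply Units.ext
    simp [hf, ZMod.unitsMap_def]
  set ν : (ZMod e)ˣ → ℤ := fun y => n (Function.surjInv hsurj y) with hν
  have h1 : ∀ z, n z = ν (f z) := by
    intro z
    apply hnf
    exact (Function.surjInv_eq hsurj (f z)).symm
  refine ⟨ν, h1, ?_, ?_⟩
  · intro y
    obtain ⟨z, rfl⟩ := hsurj y
    rw [← hfneg, ← h1, ← h1, hodd]
  · have h2 : ∑ z, |n z| = ∑ y : (ZMod e)ˣ, ∑ z ∈ univ.filter (fun z => f z = y), |n z| := by
      rw [Finset.sum_fiberwise]
    rw [h2, Finset.sum_mul]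
    refine Finset.sum_congr rfl fun y _ => ?_
    have h3 : ∀ z ∈ univ.filter (fun z => f z = y), |n z| = |ν y| := by
      intro z hz
      rw [h1 z, (Finset.mem_filter.1 hz).2]
    rw [Finset.sum_congr rfl h3, Finset.sum_const, nsmul_eq_mul, mul_comm]
    congr 2
    obtain ⟨z₀, rfl⟩ := hsurj y
    rw [Nat.card_eq_fintype_card, Fintype.card_subtype]
    symm
    refine Finset.card_bij' (fun z _ => z * z₀⁻¹) (fun u _ => u * z₀) ?_ ?_ ?_ ?_
    · intro z hz
      rw [Finset.mem_filter] at hz ⊢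
      refine ⟨Finset.mem_univ _, ?_⟩
      rw [GA_mem he hp.pos, map_mul, map_inv]
      exact mul_inv_eq_one.2 hz.2
    · intro u hu
      rw [Finset.mem_filter] at hu ⊢
      refine ⟨Finset.mem_univ _, ?_⟩
      have := (GA_mem he hp.pos u).1 hu.2
      rw [map_mul]
      rw [← hf] at this
      rw [this, one_mul]
    · intro z _
      exact inv_mul_cancel_right _ _
    · intro u _
      exact mul_inv_cancel_right _ _

end Pool.Agent.helper76.LP
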