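import Pool.Agent.helper76.LP.Defs

/-! # Project QR: module MA -/

namespace Pool.Agent.helper76.LP

open Finset

/-! ### MA: vanishing of Fourier coefficients gives vanishing differences -/

theorem MA_inversion (d : ℕ) [NeZero d] (f : (ZMod d)ˣ → ℤ)
    (h : ∀ χ : DirichletCharacter ℂ d, ∑ z : (ZMod d)ˣ, (f z : ℂ) * χ (z : ZMod d) = 0) (x : (ZMod d)ˣ) :
    f x = 0 := by
  classical
  have h1 : ∑ χ : DirichletCharacter ℂ d, χ ((x : ZMod d)⁻¹) *
      ∑ z : (ZMod d)ˣ, (f z : ℂ) * χ (z : ZMod d) = 0 := by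
    refine Finset.sum_eq_zero fun χ _ => ?_
    rw [h χ, mul_zero]
  have h2 : ∑ χ : DirichletCharacter ℂ d, χ ((x : ZMod d)⁻¹) *
      ∑ z : (ZMod d)ˣ, (f z : ℂ) * χ (z : ZMod d) =
      ∑ z : (ZMod d)ˣ, (f z : ℂ) * ∑ χ : DirichletCharacter ℂ d, χ ((x : ZMod d)⁻¹) * χ (z : ZMod d) := by
    simp_rw [Finset.mul_sum]
    rw [Finset.sum_comm]
    refine Finset.sum_congr rfl fun z _ => Finset.sum_congr rfl fun χ _ => ?_
    ring
  rw [h2] at h1
  simp_rw [DirichletCharacter.sum_char_inv_mul_char_eq ℂ x.isUnit] at h1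
  rw [Finset.sum_eq_single x] at h1
  · rw [if_pos rfl] at h1
    have h3 : (d.totient : ℂ) ≠ 0 := by
      exact_mod_cast (Nat.totient_pos.2 (Nat.pos_of_ne_zero (NeZero.ne d))).ne'
    have h4 := (mul_eq_zero.1 h1).resolve_right h3
    exact_mod_cast h4
  · intro z _ hz
    rw [if_neg (fun he => hz (Units.ext he.symm)), mul_zero]
  · intro hx
    exact absurd (Finset.mem_univ x) hx

theorem mdv_of_fourier (d : ℕ) [NeZero d] (Γ : ℕ → Subgroup (ZMod d)ˣ) (L : List ℕ)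
    (f : (ZMod d)ˣ → ℤ)
    (h : ∀ χ : DirichletCharacter ℂ d, (∑ z : (ZMod d)ˣ, (f z : ℂ) * χ (z : ZMod d) = 0) ∨
      ∃ p ∈ L, ∀ u ∈ Γ p, χ (u : ZMod d) = 1) : MDv Γ L f := by
  induction L generalizing f with
  | nil =>
    intro x
    refine MA_inversion d f (fun χ => ?_) x
    rcases h χ with h1 | ⟨p, hp, -⟩
    · exact h1
    · exact absurd hp (List.not_mem_nil)
  | cons i L ih =>
    intro u hu
    refine ih (fun x => f (u * x) - f x) fun χ => ?_
    have h1 : ∑ z : (ZMod d)ˣ, ((f (u * z) - f z : ℤ) : ℂ) * χ (z : ZMod d) =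
        (χ ((u⁻¹ : (ZMod d)ˣ) : ZMod d) - 1) * ∑ z : (ZMod d)ˣ, (f z : ℂ) * χ (z : ZMod d) := by
      have h2 : ∑ z : (ZMod d)ˣ, (f (u * z) : ℂ) * χ (z : ZMod d) =
          χ ((u⁻¹ : (ZMod d)ˣ) : ZMod d) * ∑ z : (ZMod d)ˣ, (f z : ℂ) * χ (z : ZMod d) := by
        rw [← Equiv.sum_comp (Equiv.mulLeft u) (fun z => (f z : ℂ) * χ (z : ZMod d)), Finset.mul_sum]
        refine Finset.sum_congr rfl fun z _ => ?_
        rw [Equiv.coe_mulLeft]
        have h3 : χ (z : ZMod d) = χ ((u⁻¹ : (ZMod d)ˣ) : ZMod d) * χ ((u * z : (ZMod d)ˣ) : ZMod d) := by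
          rw [← map_mul, ← Units.val_mul, inv_mul_cancel_left]
        rw [h3]
        ring
      rw [sub_mul, ← h2, one_mul, ← Finset.sum_sub_distrib]
      refine Finset.sum_congr rfl fun z _ => ?_
      push_cast
      ring
    rcases h χ with h2 | ⟨p, hp, hp'⟩
    · left
      rw [h1, h2, mul_zero]
    · rcases List.mem_cons.1 hp with rfl | hp
      · left
        rw [h1, hp' _ (Subgroup.inv_mem _ hu), sub_self, zero_mul]
      · exact Or.inr ⟨p, hp, hp'⟩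

end Pool.Agent.helper76.LP
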